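import Pool.Agent.W172.MK.Stm

/-!
Project MK, part B2: Fourier inversion, Parseval and convolution on `V n`.
-/

set_option autoImplicit false

namespace Pool.Agent.W359.MK.FT

open Pool.Agent.W172.MK

lemma qq_ne (n : ℕ) : qq n ≠ 0 := by unfold qq; positivity

lemma add_self_V {n : ℕ} (a : V n) : a + a = 0 := by
  funext i
  exact CharTwo.add_self_eq_zero (a i)

lemma add_eq_zero_V {n : ℕ} (a b : V n) : a + b = 0 ↔ b = a := by
  constructor
  · intro h
    have h1 : a + (a + b) = a + 0 := by rw [h]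
    rw [← add_assoc, add_self_V, zero_add, add_zero] at h1
    exact h1
  · rintro rfl
    exact add_self_V b

/-- orthogonality -/
lemma orth (hE : P_EE) (n : ℕ) (b b1 : V n) :
    ∑ a : V n, ee a b * ee a b1 = if b1 = b then qq n else 0 := by
  obtain ⟨_, hs, hm, _, hsum⟩ := hE n
  have h1 : ∀ a : V n, ee a b * ee a b1 = ee a (b + b1) := by
    intro a
    rw [hs a b, hs a b1, hs a (b + b1), hm]
  simp_rw [h1]
  rw [hsum (b + b1)]
  by_cases h : b1 = b
  · rw [if_pos h, if_pos ((add_eq_zero_V b b1).2 h)]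
  · rw [if_neg h, if_neg (fun h' => h ((add_eq_zero_V b b1).1 h'))]

lemma inv (hE : P_EE) (n : ℕ) (D : V n → ℝ) (b : V n) :
    D b = ∑ a, hat D a * ee a b := by
  have h1 : ∑ a, hat D a * ee a b = (∑ a : V n, ∑ b1 : V n, D b1 * (ee a b1 * ee a b)) / qq n := by
    rw [Finset.sum_div]
    refine Finset.sum_congr rfl (fun a _ => ?_)
    unfold hat
    rw [div_mul_eq_mul_div, Finset.sum_mul]
    congr 1
    refine Finset.sum_congr rfl (fun b1 _ => ?_)
    ring
  rw [h1, Finset.sum_comm]
  have h2 : ∀ b1 : V n, ∑ a : V n, D b1 * (ee a b1 * ee a b) = if b = b1 then D b1 * qq n else 0 := by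
    intro b1
    rw [← Finset.mul_sum, orth hE n b1 b]
    split_ifs <;> simp
  simp_rw [h2]
  rw [Finset.sum_ite_eq]
  simp only [Finset.mem_univ, if_true]
  rw [mul_div_assoc, div_self (qq_ne n), mul_one]

lemma pars (hE : P_EE) (n : ℕ) (D : V n → ℝ) :
    ∑ a, (hat D a) ^ 2 = (∑ b, (D b) ^ 2) / qq n := by
  have h1 : ∀ a : V n, (hat D a) ^ 2 = (∑ b, D b * (hat D a * ee a b)) / qq n := by
    intro a
    have : (∑ b, D b * (hat D a * ee a b)) = hat D a * (∑ b, D b * ee a b) := by
      rw [Finset.mul_sum]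
      refine Finset.sum_congr rfl (fun b _ => ?_)
      ring
    rw [this, mul_div_assoc, sq]
    rfl
  simp_rw [h1]
  rw [← Finset.sum_div, Finset.sum_comm]
  congr 1
  refine Finset.sum_congr rfl (fun b _ => ?_)
  rw [← Finset.mul_sum, ← inv hE n D b, sq]

lemma conv (hE : P_EE) (n : ℕ) (D u : V n → ℝ) (a : V n) :
    hat (fun b => D b * u b) a = ∑ a', hat D a' * hat u (a + a') := by
  obtain ⟨_, hs, hm, _, hsum⟩ := hE n
  have h1 : ∀ b : V n, D b * u b * ee a b = ∑ a', hat D a' * (u b * ee (a + a') b) := by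
    intro b
    have h2 := inv hE n D b
    have h3 : D b * u b * ee a b = (∑ a', hat D a' * ee a' b) * u b * ee a b := by rw [← h2]
    rw [h3, Finset.sum_mul, Finset.sum_mul]
    refine Finset.sum_congr rfl (fun a' _ => ?_)
    rw [hm]
    ring
  have h4 : hat (fun b => D b * u b) a = (∑ b, D b * u b * ee a b) / qq n := rfl
  rw [h4]
  simp_rw [h1]
  rw [Finset.sum_comm, Finset.sum_div]
  refine Finset.sum_congr rfl (fun a' _ => ?_)
  rw [← Finset.mul_sum, mul_div_assoc]
  rfl

theorem ft : P_EE → P_FT := by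
  intro hE n D u
  exact ⟨inv hE n D, pars hE n D, conv hE n D u⟩

end Pool.Agent.W359.MK.FT
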